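import Mathlib

/-!
# Common eigenvectors of commuting involutions
-/

namespace Pool.Agent.Q237.D3C

open Module

variable {V : Type*} [AddCommGroup V] [Module ℂ V] [FiniteDimensional ℂ V] {I : Type*}

/-- A subspace stable under commuting involutions is spanned by common eigenvectors. -/
theorem joint_span (F : I → V →ₗ[ℂ] V) (hc : ∀ i j x, F i (F j x) = F j (F i x))
    (hs : ∀ i x, F i (F i x) = x) : ∀ (n : ℕ) (W : Submodule ℂ V), finrank ℂ W = n →
    (∀ i, ∀ x ∈ W, F i x ∈ W) →
    W ≤ Submodule.span ℂ {x | x ∈ W ∧ ∀ i, F i x = x ∨ F i x = -x} := by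
  intro n
  induction n using Nat.strong_induction_on with
  | _ n ih =>
    intro W hW hst
    by_cases h : ∀ i, (∀ x ∈ W, F i x = x) ∨ (∀ x ∈ W, F i x = -x)
    · intro x hx
      refine Submodule.subset_span ⟨hx, fun i => ?_⟩
      rcases h i with h1 | h1
      · exact Or.inl (h1 x hx)
      · exact Or.inr (h1 x hx)
    · push Not at h
      obtain ⟨i, ⟨x1, hx1, h1⟩, ⟨x2, hx2, h2⟩⟩ := h
      have key : ∀ W' : Submodule ℂ V, W' < W → (∀ j, ∀ x ∈ W', F j x ∈ W') →
          W' ≤ Submodule.span ℂ {x | x ∈ W ∧ ∀ i, F i x = x ∨ F i x = -x} := by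
        intro W' hlt hst'
        refine (ih (finrank ℂ W') ?_ W' rfl hst').trans (Submodule.span_mono ?_)
        · rw [← hW]
          exact Submodule.finrank_lt_finrank_of_lt hlt
        · rintro x ⟨hx, hx'⟩
          exact ⟨hlt.le hx, hx'⟩
      let W1 : Submodule ℂ V := W ⊓ LinearMap.ker (F i - LinearMap.id)
      let W2 : Submodule ℂ V := W ⊓ LinearMap.ker (F i + LinearMap.id)
      have m1 : ∀ x, x ∈ W1 ↔ x ∈ W ∧ F i x = x := by
        intro x
        change (x ∈ W ∧ x ∈ LinearMap.ker (F i - LinearMap.id)) ↔ _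
        rw [LinearMap.mem_ker, LinearMap.sub_apply, LinearMap.id_apply, sub_eq_zero]
      have m2 : ∀ x, x ∈ W2 ↔ x ∈ W ∧ F i x = -x := by
        intro x
        change (x ∈ W ∧ x ∈ LinearMap.ker (F i + LinearMap.id)) ↔ _
        rw [LinearMap.mem_ker, LinearMap.add_apply, LinearMap.id_apply, add_eq_zero_iff_eq_neg]
      have l1 : W1 < W := by
        refine lt_of_le_of_ne inf_le_left fun he => h1 ?_
        have h3 : x1 ∈ W1 := by
          rw [he]
          exact hx1
        exact ((m1 x1).1 h3).2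
      have l2 : W2 < W := by
        refine lt_of_le_of_ne inf_le_left fun he => h2 ?_
        have h3 : x2 ∈ W2 := by
          rw [he]
          exact hx2
        exact ((m2 x2).1 h3).2
      have s1 : ∀ j, ∀ x ∈ W1, F j x ∈ W1 := by
        intro j x hx
        rw [m1] at hx ⊢
        exact ⟨hst j x hx.1, by rw [hc, hx.2]⟩
      have s2 : ∀ j, ∀ x ∈ W2, F j x ∈ W2 := by
        intro j x hx
        rw [m2] at hx ⊢
        exact ⟨hst j x hx.1, by rw [hc, hx.2, map_neg]⟩
      intro x hx
      have e1 : x = (1 / 2 : ℂ) • (x + F i x) + (1 / 2 : ℂ) • (x - F i x) := by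
        module
      have q1 : x + F i x ∈ W1 := by
        rw [m1]
        refine ⟨Submodule.add_mem _ hx (hst i x hx), ?_⟩
        rw [map_add, hs, add_comm]
      have q2 : x - F i x ∈ W2 := by
        rw [m2]
        refine ⟨Submodule.sub_mem _ hx (hst i x hx), ?_⟩
        rw [map_sub, hs, neg_sub]
      rw [e1]
      exact Submodule.add_mem _ (Submodule.smul_mem _ _ (key W1 l1 s1 q1))
        (Submodule.smul_mem _ _ (key W2 l2 s2 q2))

/-- A subspace stable under commuting involutions has a basis of common eigenvectors. -/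
theorem joint_basis (F : I → V →ₗ[ℂ] V) (hc : ∀ i j x, F i (F j x) = F j (F i x))
    (hs : ∀ i x, F i (F i x) = x) (W : Submodule ℂ V) (hst : ∀ i, ∀ x ∈ W, F i x ∈ W) (g : ℕ)
    (hg : finrank ℂ W = g) :
    ∃ u : Fin g → V, LinearIndependent ℂ u ∧ Submodule.span ℂ (Set.range u) = W ∧
      ∀ k i, F i (u k) = u k ∨ F i (u k) = -u k := by
  obtain ⟨b, hb1, hb2, hb3⟩ := exists_linearIndependent ℂ
    {x | x ∈ W ∧ ∀ i, F i x = x ∨ F i x = -x}
  have h1 : Submodule.span ℂ b = W := by
    rw [hb2]
    refine le_antisymm (Submodule.span_le.2 fun x hx => hx.1) ?_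
    exact joint_span F hc hs _ W rfl hst
  have hfin : b.Finite := hb3.setFinite
  haveI : Fintype b := hfin.fintype
  have h2 : Fintype.card b = g := by
    rw [← hg, ← h1]
    have := finrank_span_eq_card hb3
    rw [Subtype.range_coe_subtype] at this
    exact this.symm
  let e : b ≃ Fin g := Fintype.equivFinOfCardEq h2
  refine ⟨fun k => (e.symm k : V), ?_, ?_, ?_⟩
  · exact hb3.comp _ e.symm.injective
  · rw [← h1]
    congr 1
    ext x
    constructor
    · rintro ⟨k, rfl⟩
      exact (e.symm k).2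
    · intro hx
      exact ⟨e ⟨x, hx⟩, by simp⟩
  · intro k i
    exact (hb1 (e.symm k).2).2 i

end Pool.Agent.Q237.D3C
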