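import Mathlib
import Pool.Agent.Q60.D3C.Stm
import Pool.Agent.W437.HD.Var
import Pool.Agent.Q237.D3C.Joint

/-!
# The common eigenvectors of the conjugates of the Hodge operator
-/

namespace Pool.Agent.Q237.D3C

open Matrix Pool.Agent.H204R3.CM Pool.Agent.W437.HC Pool.Agent.W437.HD Pool.Agent.W437.HP
  Pool.Agent.Q60.D3

variable {g : ℕ} {Z : Matrix (Fin g) (Fin g) ℂ}

theorem conj_comm (hC : Comm Z) (σ τ : ℂ ≃+* ℂ) :
    (DZ Z).map σ * (DZ Z).map τ = (DZ Z).map τ * (DZ Z).map σ := by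
  have h := hC (σ.trans τ.symm)
  have h1 := congrArg (fun A => A.map τ) h
  simp only [Matrix.map_mul] at h1
  have h2 : ((DZ Z).map (σ.trans τ.symm)).map τ = (DZ Z).map σ := by
    ext i j
    simp
  rw [h2] at h1
  exact h1

theorem conj_sq (hY : IsUnit (imM Z).det) (σ : ℂ ≃+* ℂ) :
    (DZ Z).map σ * (DZ Z).map σ = 1 := by
  have h1 := congrArg (fun A => A.map σ) (DZ_sq hY)
  simp only [Matrix.map_mul] at h1
  rw [h1]
  ext i j
  simp [Matrix.one_apply, apply_ite]

theorem conj_sp (hZ : Zᵀ = Z) (σ : ℂ ≃+* ℂ) (x y : Fin g ⊕ Fin g → ℂ) :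
    om ((DZ Z).map σ *ᵥ x) y = -om x ((DZ Z).map σ *ᵥ y) := by
  have h1 := DZ_sp hZ
  rw [Om_map] at h1
  exact om_sp (sp_map h1 σ) x y

/-- Vectors of a Lagrangian subspace. -/
noncomputable def vecLin (M : Matrix (Fin g) (Fin g) ℂ) : (Fin g → ℂ) →ₗ[ℂ] (Fin g ⊕ Fin g → ℂ) where
  toFun b := vecL M b
  map_add' b c := by
    funext i
    rcases i with i | i
    · simp only [vecL, Sum.elim_inl, Pi.neg_apply, mulVec_add, Pi.add_apply]
      ring
    · rfl
  map_smul' a b := by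
    funext i
    rcases i with i | i
    · simp only [vecL, Sum.elim_inl, Pi.neg_apply, mulVec_smul, Pi.smul_apply, RingHom.id_apply,
        smul_eq_mul]
      ring
    · rfl

theorem vecLin_inj (M : Matrix (Fin g) (Fin g) ℂ) : Function.Injective (vecLin M) := by
  intro b c h
  funext i
  exact congrFun h (Sum.inr i)

theorem finrank_vecLin (M : Matrix (Fin g) (Fin g) ℂ) :
    Module.finrank ℂ (LinearMap.range (vecLin M)) = g := by
  rw [LinearMap.finrank_range_of_inj (vecLin_inj M), Module.finrank_fin_fun]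

theorem mem_pos (hY : IsUnit (imM Z).det) (x : Fin g ⊕ Fin g → ℂ) :
    x ∈ LinearMap.range (vecLin (Z.map (starRingEnd ℂ))) ↔ DZ Z *ᵥ x = x := by
  constructor
  · rintro ⟨b, rfl⟩
    exact DZ_vecL_bar hY b
  · intro h
    obtain ⟨b, b', hx⟩ := exists_decomp Z (Z.map (starRingEnd ℂ)) (isUnit_bar_sub hY) x
    rw [hx, mulVec_add, DZ_vecL hY, DZ_vecL_bar hY] at h
    have h1 : vecL Z b = 0 := by
      have h2 : (2 : ℂ) • vecL Z b = 0 := by
        have h3 := sub_eq_zero.2 h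
        have h4 : -vecL Z b + vecL (Z.map (starRingEnd ℂ)) b' -
          (vecL Z b + vecL (Z.map (starRingEnd ℂ)) b') = -((2 : ℂ) • vecL Z b) := by
          module
        rw [h4] at h3
        exact neg_eq_zero.1 h3
      exact (smul_eq_zero.1 h2).resolve_left two_ne_zero
    rw [h1, zero_add] at hx
    exact ⟨b', hx.symm⟩

theorem mem_neg (hY : IsUnit (imM Z).det) (x : Fin g ⊕ Fin g → ℂ) :
    x ∈ LinearMap.range (vecLin Z) ↔ DZ Z *ᵥ x = -x := by
  constructor
  · rintro ⟨b, rfl⟩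
    exact DZ_vecL hY b
  · intro h
    obtain ⟨b, b', hx⟩ := exists_decomp Z (Z.map (starRingEnd ℂ)) (isUnit_bar_sub hY) x
    rw [hx, mulVec_add, DZ_vecL hY, DZ_vecL_bar hY] at h
    have h1 : vecL (Z.map (starRingEnd ℂ)) b' = 0 := by
      have h2 : (2 : ℂ) • vecL (Z.map (starRingEnd ℂ)) b' = 0 := by
        have h3 := sub_eq_zero.2 h
        have h4 : -vecL Z b + vecL (Z.map (starRingEnd ℂ)) b' -
          -(vecL Z b + vecL (Z.map (starRingEnd ℂ)) b') =
          (2 : ℂ) • vecL (Z.map (starRingEnd ℂ)) b' := by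
          module
        rw [h4] at h3
        exact h3
      exact (smul_eq_zero.1 h2).resolve_left two_ne_zero
    rw [h1, add_zero] at hx
    exact ⟨b, hx.symm⟩

theorem om_nondeg {y : Fin g ⊕ Fin g → ℂ} (h : ∀ x, om x y = 0) : y = 0 := by
  have h1 : Om g ℂ *ᵥ y = 0 := by
    funext i
    have h2 := h (Pi.single i 1)
    unfold om at h2
    rw [single_dotProduct, one_mul] at h2
    exact h2
  have h3 : Om g ℂ *ᵥ (Om g ℂ *ᵥ y) = -y := by
    rw [mulVec_mulVec, Om_sq, neg_mulVec, one_mulVec]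
  rw [h1, mulVec_zero] at h3
  exact (neg_eq_zero.1 h3.symm)

theorem iso_pos (hZ : Zᵀ = Z) {x y : Fin g ⊕ Fin g → ℂ} (hx : DZ Z *ᵥ x = x)
    (hy : DZ Z *ᵥ y = y) : om x y = 0 := by
  have h1 := conj_sp hZ (RingEquiv.refl ℂ) x y
  have h2 : (DZ Z).map (RingEquiv.refl ℂ) = DZ Z := by
    ext i j
    simp
  rw [h2, hx, hy] at h1
  have h3 : 2 * om x y = 0 := by linear_combination h1
  exact (mul_eq_zero.1 h3).resolve_left two_ne_zero

theorem iso_neg (hZ : Zᵀ = Z) {x y : Fin g ⊕ Fin g → ℂ} (hx : DZ Z *ᵥ x = -x)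
    (hy : DZ Z *ᵥ y = -y) : om x y = 0 := by
  have h1 := conj_sp hZ (RingEquiv.refl ℂ) x y
  have h2 : (DZ Z).map (RingEquiv.refl ℂ) = DZ Z := by
    ext i j
    simp
  rw [h2, hx, hy, om_neg_left, om_neg_right] at h1
  have h3 : 2 * om x y = 0 := by linear_combination -h1
  exact (mul_eq_zero.1 h3).resolve_left two_ne_zero

/-- The pairing with a basis of the positive part. -/
noncomputable def pairing (u : Fin g → Fin g ⊕ Fin g → ℂ) (W : Submodule ℂ (Fin g ⊕ Fin g → ℂ)) :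
    W →ₗ[ℂ] (Fin g → ℂ) where
  toFun y := fun k => om (u k) y
  map_add' y z := by
    funext k
    exact om_add_right _ _ _
  map_smul' a y := by
    funext k
    exact om_smul_right _ _ _

theorem cz : Pool.Agent.Q60.D3C.S_cz := by
  intro g Z hZ hpos hC
  classical
  have hY : IsUnit (imM Z).det := hpos.isUnit.map Matrix.detMonoidHom
  have hid : (DZ Z).map (RingEquiv.refl ℂ) = DZ Z := by
    ext i j
    simp
  set Wp := LinearMap.range (vecLin (Z.map (starRingEnd ℂ))) with hWp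
  set Wn := LinearMap.range (vecLin Z) with hWn
  have hcomm : ∀ (σ : ℂ ≃+* ℂ) (x : Fin g ⊕ Fin g → ℂ),
      DZ Z *ᵥ ((DZ Z).map σ *ᵥ x) = (DZ Z).map σ *ᵥ (DZ Z *ᵥ x) := by
    intro σ x
    rw [mulVec_mulVec, mulVec_mulVec, ← hC σ]
  obtain ⟨u, hu1, hu2, hu3⟩ := joint_basis
    (fun σ : ℂ ≃+* ℂ => ((DZ Z).map σ).mulVecLin)
    (fun σ τ x => by
      rw [mulVecLin_apply, mulVecLin_apply, mulVecLin_apply, mulVecLin_apply, mulVec_mulVec,
        mulVec_mulVec, conj_comm hC])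
    (fun σ x => by
      rw [mulVecLin_apply, mulVecLin_apply, mulVec_mulVec, conj_sq hY, one_mulVec])
    Wp
    (fun σ x hx => by
      rw [mulVecLin_apply]
      rw [hWp, mem_pos hY] at hx ⊢
      rw [hcomm, hx])
    g (finrank_vecLin _)
  simp only [mulVecLin_apply] at hu3
  have huW : ∀ k, DZ Z *ᵥ u k = u k := by
    intro k
    have h1 : u k ∈ Wp := by
      rw [← hu2]
      exact Submodule.subset_span ⟨k, rfl⟩
    rwa [hWp, mem_pos hY] at h1
  have hu0 : ∀ k, u k ≠ 0 := fun k => hu1.ne_zero k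
  -- the pairing
  have hinj : Function.Injective (pairing u Wn) := by
    rw [← LinearMap.ker_eq_bot, LinearMap.ker_eq_bot']
    rintro ⟨y, hy⟩ h
    have hy' : DZ Z *ᵥ y = -y := by
      rwa [hWn, mem_neg hY] at hy
    have h1 : ∀ k, om (u k) y = 0 := fun k => congrFun h k
    have h2 : ∀ x ∈ Wp, om x y = 0 := by
      intro x hx
      rw [← hu2] at hx
      induction hx using Submodule.span_induction with
      | mem x hx =>
        obtain ⟨k, rfl⟩ := hx
        exact h1 k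
      | zero =>
        unfold om
        rw [zero_dotProduct]
      | add x z _ _ h3 h4 => rw [om_add_left, h3, h4, add_zero]
      | smul a x _ h3 => rw [om_smul_left, h3, mul_zero]
    have h3 : y = 0 := by
      apply om_nondeg
      intro x
      obtain ⟨b, b', hx⟩ := exists_decomp Z (Z.map (starRingEnd ℂ)) (isUnit_bar_sub hY) x
      have h4 : om (vecL (Z.map (starRingEnd ℂ)) b') y = 0 := h2 _ ⟨b', rfl⟩
      rw [hx, om_add_left, iso_neg hZ (DZ_vecL hY b) hy', h4, add_zero]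
    exact Subtype.ext h3
  have hsurj : Function.Surjective (pairing u Wn) := by
    rw [← LinearMap.injective_iff_surjective_of_finrank_eq_finrank]
    · exact hinj
    · rw [hWn, finrank_vecLin, Module.finrank_fin_fun]
  choose v hv using fun l : Fin g => hsurj (Pi.single l 1)
  have hdual : ∀ k l, om (u k) (v l : Fin g ⊕ Fin g → ℂ) = if k = l then 1 else 0 := by
    intro k l
    have h1 := congrFun (hv l) k
    rw [Pi.single_apply] at h1
    exact h1
  have hvW : ∀ l, DZ Z *ᵥ (v l : Fin g ⊕ Fin g → ℂ) = -(v l : Fin g ⊕ Fin g → ℂ) := by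
    intro l
    exact (mem_neg hY _).1 (v l).2
  let c : Fin g → (ℂ ≃+* ℂ) → ℤ := fun k σ => if (DZ Z).map σ *ᵥ u k = u k then 1 else -1
  have hcu : ∀ k (σ : ℂ ≃+* ℂ), (DZ Z).map σ *ᵥ u k = (c k σ : ℂ) • u k := by
    intro k σ
    change _ = (((if (DZ Z).map σ *ᵥ u k = u k then 1 else -1 : ℤ)) : ℂ) • u k
    split_ifs with h
    · rw [h, Int.cast_one, one_smul]
    · rw [(hu3 k σ).resolve_left h, Int.cast_neg, Int.cast_one, neg_smul, one_smul]
  refine ⟨⟨u, fun l => (v l : Fin g ⊕ Fin g → ℂ), c, ?_, ?_, hdual, hcu, ?_⟩⟩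
  · intro k σ
    change (if (DZ Z).map σ *ᵥ u k = u k then (1 : ℤ) else -1) = 1 ∨
      (if (DZ Z).map σ *ᵥ u k = u k then (1 : ℤ) else -1) = -1
    split_ifs
    · exact Or.inl rfl
    · exact Or.inr rfl
  · intro k
    change (if (DZ Z).map (RingEquiv.refl ℂ) *ᵥ u k = u k then (1 : ℤ) else -1) = 1
    rw [hid, if_pos (huW k)]
  · intro l σ
    have h1 : (DZ Z).map σ *ᵥ (v l : Fin g ⊕ Fin g → ℂ) ∈ Wn := by
      refine (mem_neg hY _).2 ?_
      rw [hcomm, hvW, mulVec_neg]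
    have h2 : (-(c l σ) : ℂ) • (v l : Fin g ⊕ Fin g → ℂ) ∈ Wn := Submodule.smul_mem _ _ (v l).2
    have h3 : (⟨_, h1⟩ : Wn) = ⟨_, h2⟩ := by
      apply hinj
      funext k
      change om (u k) ((DZ Z).map σ *ᵥ (v l : Fin g ⊕ Fin g → ℂ)) =
        om (u k) ((-(c l σ) : ℂ) • (v l : Fin g ⊕ Fin g → ℂ))
      have h4 := conj_sp hZ σ (u k) (v l : Fin g ⊕ Fin g → ℂ)
      rw [hcu, om_smul_left, hdual] at h4
      rw [om_smul_right, hdual]
      by_cases hkl : k = l
      · subst hkl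
        rw [if_pos rfl] at h4 ⊢
        linear_combination h4
      · rw [if_neg hkl] at h4 ⊢
        linear_combination h4
    exact congrArg Subtype.val h3

end Pool.Agent.Q237.D3C
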