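import Mathlib
import Pool.Agent.Q60.D3C.Stm
import Pool.Agent.Q237.D3C.Cz

/-!
# The weights of the coordinates on an abelian variety of CM type
-/

namespace Pool.Agent.Q237.D3C

open Matrix Pool.Agent.H204R3.CM Pool.Agent.W437.HC Pool.Agent.W437.HD Pool.Agent.W437.HP
  Pool.Agent.Q60.D3

variable {g : ℕ} {Z : Matrix (Fin g) (Fin g) ℂ}

theorem weight_of_eig (h : S_wgt) (hpos : (imM Z).PosDef)
    (φ : (Fin g ⊕ Fin g → ℂ) →ₗ[ℂ] ℂ)
    (γ : MultilinearMap ℚ (fun _ : Fin 1 => Fin g ⊕ Fin g → ℚ) ℂ)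
    (hγ : ∀ x, γ x = φ (fun i => ((x 0 i : ℚ) : ℂ))) (σ : ℂ ≃+* ℂ) (w : ℤ)
    (hφ : ∀ y, φ ((DZ Z).map σ.symm *ᵥ y) = (w : ℂ) * φ y) :
    HasWeight (perOne Z) (conjF σ γ) w := by
  apply h g Z hpos (Fin 1) (conjF σ γ) w
  have h1 : ∀ I : Fin 1 → Fin g ⊕ Fin g, (conjF σ γ fun k => Pi.single (I k) 1) =
      σ (φ (Pi.single (I 0) 1)) := by
    intro I
    change σ (γ fun k => Pi.single (I k) 1) = _
    rw [hγ]
    congr 2
    funext i
    simp only [Pi.single_apply]
    split_ifs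
    · exact Rat.cast_one
    · exact Rat.cast_zero
  funext I
  rw [Pi.smul_apply, h1]
  simp only [act, h1]
  rw [Fin.sum_univ_one]
  have h2 : ∀ j : Fin g ⊕ Fin g, Function.update I 0 j 0 = j := fun j => Function.update_self ..
  simp only [h2]
  have h3 : ∑ j, DZ Z j (I 0) * σ (φ (Pi.single j 1)) =
      σ (φ ((DZ Z).map σ.symm *ᵥ Pi.single (I 0) 1)) := by
    have h4 : (DZ Z).map σ.symm *ᵥ Pi.single (I 0) 1 =
        ∑ j, σ.symm (DZ Z j (I 0)) • (Pi.single j 1 : Fin g ⊕ Fin g → ℂ) := by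
      funext i
      rw [mulVec_single_one, Finset.sum_apply, Finset.sum_eq_single i]
      · simp
      · intro b _ hb
        rw [Pi.smul_apply, Pi.single_eq_of_ne (Ne.symm hb), smul_zero]
      · intro h
        exact absurd (Finset.mem_univ _) h
    rw [h4, map_sum, map_sum]
    refine Finset.sum_congr rfl fun j _ => ?_
    rw [map_smul, smul_eq_mul, map_mul, RingEquiv.apply_symm_apply]
  rw [h3, hφ, map_mul, map_intCast, smul_eq_mul]

/-- The form with fixed second variable. -/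
noncomputable def omL (v : Fin g ⊕ Fin g → ℂ) : (Fin g ⊕ Fin g → ℂ) →ₗ[ℂ] ℂ where
  toFun x := om x v
  map_add' x y := om_add_left x y v
  map_smul' c x := om_smul_left c x v

/-- The form with fixed first variable. -/
noncomputable def omR (u : Fin g ⊕ Fin g → ℂ) : (Fin g ⊕ Fin g → ℂ) →ₗ[ℂ] ℂ where
  toFun x := om u x
  map_add' x y := om_add_right u x y
  map_smul' c x := om_smul_right c u x

theorem cwt (h : S_wgt) : Pool.Agent.Q60.D3C.S_cwt := by
  intro g Z hZ hpos C k γ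
  refine ⟨fun hγ σ => ?_, fun hγ σ => ?_⟩
  · refine weight_of_eig h hpos (omL (C.v k)) γ hγ σ _ fun y => ?_
    change om ((DZ Z).map σ.symm *ᵥ y) (C.v k) = _ * om y (C.v k)
    rw [conj_sp hZ, C.hv, om_smul_right]
    ring
  · refine weight_of_eig h hpos (omR (C.u k)) γ hγ σ _ fun y => ?_
    change om (C.u k) ((DZ Z).map σ.symm *ᵥ y) = _ * om (C.u k) y
    have h1 := conj_sp hZ σ.symm (C.u k) y
    rw [C.hu, om_smul_left] at h1
    push_cast
    linear_combination h1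

end Pool.Agent.Q237.D3C
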