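import Mathlib
import Pool.Agent.Q60.D3.Stm

/-!
# Elliptic curves with complex multiplication and products of abelian varieties of CM type
-/

namespace Pool.Agent.Q237.D3C

open Pool.Agent.H204R3.CM Pool.Agent.Q60.D3

theorem per_smul (X : AV) (a : ℚ) (w : X.H) : X.per (a • w) = (a : ℂ) • X.per w := by
  have h := map_ratCast_smul X.per ℚ ℂ a w
  rwa [Rat.cast_id] at h

/-- The algebra generated by an endomorphism with rational square. -/
def quadS {H : Type} [AddCommGroup H] [Module ℚ H] (φ : H →ₗ[ℚ] H) (d : ℕ)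
    (sq : ∀ w, φ (φ w) = -((d : ℚ) • w)) : Subalgebra ℚ (Module.End ℚ H) where
  carrier := {s | ∃ a b : ℚ, ∀ w, s w = a • w + b • φ w}
  mul_mem' := by
    rintro s t ⟨a, b, h⟩ ⟨a', b', h'⟩
    refine ⟨a * a' - d * (b * b'), a * b' + b * a', fun w => ?_⟩
    change s (t w) = _
    rw [h, h', map_add, map_smul, map_smul, sq]
    module
  add_mem' := by
    rintro s t ⟨a, b, h⟩ ⟨a', b', h'⟩
    refine ⟨a + a', b + b', fun w => ?_⟩
    rw [LinearMap.add_apply, h, h']
    module
  algebraMap_mem' := by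
    intro r
    refine ⟨r, 0, fun w => ?_⟩
    rw [Module.algebraMap_end_apply, zero_smul, add_zero]

theorem mem_quadS {H : Type} [AddCommGroup H] [Module ℚ H] (φ : H →ₗ[ℚ] H) (d : ℕ)
    (sq : ∀ w, φ (φ w) = -((d : ℚ) • w)) (s : Module.End ℚ H) :
    s ∈ quadS φ d sq ↔ ∃ a b : ℚ, ∀ w, s w = a • w + b • φ w := Iff.rfl

theorem norm_eq_zero {d : ℕ} (hd : d ≠ 0) {a b : ℚ} (h : a * a + d * (b * b) = 0) :
    a = 0 ∧ b = 0 := by
  have hd' : (0 : ℚ) < d := by exact_mod_cast Nat.pos_of_ne_zero hd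
  have h1 : 0 ≤ a * a := mul_self_nonneg a
  have h2 : 0 ≤ b * b := mul_self_nonneg b
  have h3 : 0 ≤ (d : ℚ) * (b * b) := mul_nonneg hd'.le h2
  have h4 : a * a = 0 := by linarith
  have h5 : (d : ℚ) * (b * b) = 0 := by linarith
  refine ⟨mul_self_eq_zero.1 h4, ?_⟩
  rcases mul_eq_zero.1 h5 with h6 | h6
  · exact absurd h6 hd'.ne'
  · exact mul_self_eq_zero.1 h6

/-- Elliptic curves with complex multiplication are of CM type. -/
theorem ecm' : ∀ (E : AV) (_ : KOn E 1), IsCM E := by
  intro E K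
  have hd : K.d ≠ 0 := K.hd.ne_zero
  have hdim : Module.finrank ℚ E.H = 2 := by rw [E.dim, K.dimA]
  have hnt : Nontrivial E.H := by
    apply Module.nontrivial_of_finrank_pos (R := ℚ)
    rw [hdim]
    norm_num
  have key : ∀ (a b : ℚ) (w : E.H), a • (a • w + b • K.φ w) - b • K.φ (a • w + b • K.φ w) =
      (a * a + K.d * (b * b)) • w := by
    intro a b w
    rw [map_add, map_smul, map_smul, K.sq]
    module
  refine ⟨quadS K.φ K.d K.sq, ?_, ?_, ?_, ?_⟩
  · rintro s ⟨a, b, h⟩
    obtain ⟨C, hC⟩ := K.hφ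
    refine ⟨(a : ℂ) • LinearMap.id + (b : ℂ) • C, fun w => ?_⟩
    rw [h, map_add, per_smul, per_smul, ← hC]
    rfl
  · rintro s ⟨a, b, h⟩ t ⟨a', b', h'⟩
    apply LinearMap.ext
    intro w
    change s (t w) = t (s w)
    rw [h, h', h', h, map_add, map_add, map_smul, map_smul, map_smul, map_smul, K.sq]
    module
  · rintro s ⟨a, b, h⟩ hs
    apply LinearMap.ext
    intro w
    have h1 : s (s w) = 0 := by
      have := congrArg (fun f : Module.End ℚ E.H => f w) hs
      exact this
    by_cases h2 : a * a + (K.d : ℚ) * (b * b) = 0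
    · obtain ⟨ha, hb⟩ := norm_eq_zero hd h2
      rw [h, ha, hb, zero_smul, zero_smul, add_zero]
      rfl
    · have h3 := key a b (s w)
      rw [← h (s w), h1, map_zero, smul_zero, smul_zero, sub_zero] at h3
      exact (smul_eq_zero.1 h3.symm).resolve_left h2
  · let f : ℚ × ℚ →ₗ[ℚ] Module.End ℚ E.H :=
      { toFun := fun p => p.1 • LinearMap.id + p.2 • K.φ
        map_add' := fun p q => by
          rw [Prod.fst_add, Prod.snd_add]
          module
        map_smul' := fun c p => by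
          rw [Prod.smul_fst, Prod.smul_snd, smul_eq_mul, smul_eq_mul, RingHom.id_apply]
          module }
    have hf : Function.Injective f := by
      rw [← LinearMap.ker_eq_bot, LinearMap.ker_eq_bot']
      rintro ⟨a, b⟩ hab
      obtain ⟨w, hw⟩ := exists_ne (0 : E.H)
      have h1 : a • w + b • K.φ w = 0 := congrArg (fun g : Module.End ℚ E.H => g w) hab
      have h2 := key a b w
      rw [h1, map_zero, smul_zero, smul_zero, sub_zero] at h2
      obtain ⟨ha, hb⟩ := norm_eq_zero hd ((smul_eq_zero.1 h2.symm).resolve_right hw)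
      rw [ha, hb]
      rfl
    have hr : LinearMap.range f = Subalgebra.toSubmodule (quadS K.φ K.d K.sq) := by
      apply le_antisymm
      · rintro _ ⟨p, rfl⟩
        exact ⟨p.1, p.2, fun w => rfl⟩
      · rintro s ⟨a, b, h⟩
        refine ⟨(a, b), ?_⟩
        apply LinearMap.ext
        intro w
        rw [h]
        rfl
    have h1 := LinearMap.finrank_range_of_inj hf
    rw [hr] at h1
    rw [hdim]
    have h2 : Module.finrank ℚ (quadS K.φ K.d K.sq) =
      Module.finrank ℚ (Subalgebra.toSubmodule (quadS K.φ K.d K.sq)) := rfl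
    rw [h2, h1, Module.finrank_prod, Module.finrank_self]

/-- Products of abelian varieties of CM type are of CM type. -/
theorem pcm' : ∀ A B : AV, IsCM A → IsCM B → IsCM (A.prod B) := by
  rintro A B ⟨S, hS1, hS2, hS3, hS4⟩ ⟨T, hT1, hT2, hT3, hT4⟩
  let R : Subalgebra ℚ (Module.End ℚ (A.H × B.H)) :=
    (S.prod T).map (LinearMap.prodMapAlgHom ℚ A.H B.H)
  have hR : ∀ s, s ∈ R ↔ ∃ a ∈ S, ∃ b ∈ T, s = LinearMap.prodMap a b := by
    intro s
    constructor
    · rintro ⟨⟨a, b⟩, ⟨ha, hb⟩, rfl⟩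
      exact ⟨a, ha, b, hb, rfl⟩
    · rintro ⟨a, ha, b, hb, rfl⟩
      exact ⟨(a, b), ⟨ha, hb⟩, rfl⟩
  refine ⟨R, ?_, ?_, ?_, ?_⟩
  · intro s hs
    obtain ⟨a, ha, b, hb, rfl⟩ := (hR s).1 hs
    obtain ⟨C, hC⟩ := hS1 a ha
    obtain ⟨D, hD⟩ := hT1 b hb
    refine ⟨(LinearMap.prodMap C D : A.T × B.T →ₗ[ℂ] A.T × B.T), fun w => ?_⟩
    change (C (A.per w.1), D (B.per w.2)) = (A.per (a w.1), B.per (b w.2))
    rw [hC, hD]
  · intro s hs t ht
    obtain ⟨a, ha, b, hb, rfl⟩ := (hR s).1 hs
    obtain ⟨a', ha', b', hb', rfl⟩ := (hR t).1 ht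
    change LinearMap.prodMap (a * a') (b * b') = LinearMap.prodMap (a' * a) (b' * b)
    rw [hS2 a ha a' ha', hT2 b hb b' hb']
  · intro s hs hss
    obtain ⟨a, ha, b, hb, rfl⟩ := (hR s).1 hs
    have h0 : ∀ w : A.H × B.H, (a (a w.1), b (b w.2)) = (0 : A.H × B.H) := fun w =>
      congrArg (fun f : Module.End ℚ (A.H × B.H) => f w) hss
    have h1 : a * a = 0 := by
      apply LinearMap.ext
      intro w
      exact congrArg Prod.fst (h0 (w, 0))
    have h2 : b * b = 0 := by
      apply LinearMap.ext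
      intro w
      exact congrArg Prod.snd (h0 (0, w))
    rw [hS3 a ha h1, hT3 b hb h2]
    rfl
  · let f : S × T →ₗ[ℚ] Module.End ℚ (A.H × B.H) :=
      { toFun := fun p => LinearMap.prodMap (p.1 : Module.End ℚ A.H) (p.2 : Module.End ℚ B.H)
        map_add' := fun p q => rfl
        map_smul' := fun c p => rfl }
    have hf : Function.Injective f := by
      rintro ⟨a, b⟩ ⟨a', b'⟩ h
      have h0 : ∀ w : A.H × B.H, ((a : Module.End ℚ A.H) w.1, (b : Module.End ℚ B.H) w.2) =
          ((a' : Module.End ℚ A.H) w.1, (b' : Module.End ℚ B.H) w.2) := fun w =>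
        congrArg (fun f : Module.End ℚ (A.H × B.H) => f w) h
      have h1 : a = a' := by
        apply Subtype.ext
        apply LinearMap.ext
        intro w
        exact congrArg Prod.fst (h0 (w, 0))
      have h2 : b = b' := by
        apply Subtype.ext
        apply LinearMap.ext
        intro w
        exact congrArg Prod.snd (h0 (0, w))
      rw [h1, h2]
    have hr : LinearMap.range f = Subalgebra.toSubmodule R := by
      apply le_antisymm
      · rintro _ ⟨p, rfl⟩
        exact (hR _).2 ⟨p.1, p.1.2, p.2, p.2.2, rfl⟩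
      · intro s hs
        obtain ⟨a, ha, b, hb, rfl⟩ := (hR s).1 hs
        exact ⟨(⟨a, ha⟩, ⟨b, hb⟩), rfl⟩
    have h1 := LinearMap.finrank_range_of_inj hf
    rw [hr, Module.finrank_prod, hS4, hT4] at h1
    have h2 : Module.finrank ℚ (A.prod B).H = Module.finrank ℚ A.H + Module.finrank ℚ B.H :=
      Module.finrank_prod
    rw [h2]
    exact h1

end Pool.Agent.Q237.D3C
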