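import Mathlib
import Pool.Agent.Q60.D3C.Stm
import Pool.Agent.Q237.D3C.Ecm

/-!
# Elliptic curves with complex multiplication, products: the statements of the project
-/

namespace Pool.Agent.Q237.D3C

theorem ecm : Pool.Agent.Q60.D3C.S_ecm := ecm'

theorem pcm : Pool.Agent.Q60.D3C.S_pcm := pcm'

end Pool.Agent.Q237.D3C
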